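import Pool.Agent.Helper29.H2.St1

/-!
# H2 module FI (exact patterns, pigeonhole)
-/

set_option autoImplicit false

noncomputable section

namespace Pool.Agent.Helper29.H2

open Finset MeasureTheory
open Pool.Agent.Helper27.BG

/-- initial segments of a finite set of naturals -/
private theorem seg_FI (P : Finset ℕ) : ∀ r : ℕ, r ≤ P.card →
    ∃ T ⊆ P, T.card = r ∧ ∀ x ∈ P, ∀ t ∈ T, x ≤ t → x ∈ T := by
  intro r
  induction r with
  | zero => exact fun _ => ⟨∅, Finset.empty_subset _, rfl, by simp⟩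
  | succ r ih =>
    intro hr
    obtain ⟨T, hTP, hTc, hT⟩ := ih (by omega)
    have hne : (P \ T).Nonempty := by
      rw [Finset.nonempty_iff_ne_empty]
      intro h
      rw [Finset.sdiff_eq_empty_iff_subset] at h
      have := Finset.card_le_card h
      omega
    set x := (P \ T).min' hne with hx
    have hxP : x ∈ P \ T := Finset.min'_mem _ _
    rw [Finset.mem_sdiff] at hxP
    refine ⟨insert x T, Finset.insert_subset hxP.1 hTP, ?_, ?_⟩
    · rw [Finset.card_insert_of_notMem hxP.2, hTc]
    · intro y hy t ht hyt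
      by_cases hyT : y ∈ T
      · exact Finset.mem_insert_of_mem hyT
      rcases Finset.mem_insert.1 ht with h | h
      · have h1 : x ≤ y := Finset.min'_le _ _ (Finset.mem_sdiff.2 ⟨hy, hyT⟩)
        have h2 : y = x := by omega
        rw [h2]
        exact Finset.mem_insert_self _ _
      · exact absurd (hT y hy t h hyt) hyT

theorem hFi : StFi := by
  classical
  intro hMod ρ H hTwo hadm
  by_contra hcon
  push Not at hcon
  set S : Finset ℕ → Set ℕ := fun T => {n : ℕ | ∀ k, (∃ s ∈ T, ∃ t ∈ T, n + s ≤ k ∧ k ≤ n + t) →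
    (k.Prime ↔ ∃ t ∈ T, k = n + t)} with hS
  have hfin : ∀ T ⊆ H, T.card = ρ + 1 → (S T).Finite := by
    intro T hT hc
    exact hcon T hT hc
  set D := H.sup id + 1 with hD
  have hHD : ∀ h ∈ H, h < D := fun h hh => Nat.lt_succ_of_le (Finset.le_sup (f := id) hh)
  set E := range D \ H with hE
  obtain ⟨w₀, hw₀⟩ := hTwo
  obtain ⟨W, v, hW0, hWp, -, -, hcop, hEq⟩ := hMod H E 1 0 (max w₀ D) one_pos
    (Finset.disjoint_sdiff) (fun h _ => Nat.coprime_one_right _) hadm
  have hG : Gd (fun h : {x // x ∈ H} => (h : ℕ)) (max w₀ D) W v := by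
    refine ⟨Subtype.val_injective, fun h => ?_, ⟨hW0, hWp⟩, fun h => hcop h h.2⟩
    exact (hHD h h.2).trans_le (le_max_right _ _)
  have hSfin : (⋃ T ∈ (H.powersetCard (ρ + 1) : Finset (Finset ℕ)), S T).Finite := by
    apply Set.Finite.biUnion (Finset.finite_toSet _)
    intro T hT
    simp only [mem_coe, Finset.mem_powersetCard] at hT
    exact hfin T hT.1 hT.2
  obtain ⟨B, hB⟩ := hSfin.bddAbove
  obtain ⟨n, hn, hnv, hcard⟩ := hw₀ _ (le_max_left w₀ D) W v hG (max (W + 1) (B + 1))
  have hnW : W < n := by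
    have := (le_max_left _ _).trans hn
    omega
  have hnB : B < n := by
    have := (le_max_right _ _).trans hn
    omega
  set PH := H.filter (fun h => (n + h).Prime) with hPH
  have hPc : ρ + 1 ≤ PH.card := by
    have h1 : (univ.filter (fun m : {x // x ∈ H} => (n + (m : ℕ)).Prime)).card ≤ PH.card := by
      refine Finset.card_le_card_of_injOn (fun m => (m : ℕ)) ?_ (fun a _ b _ h => Subtype.ext h)
      intro m hm
      have hm' := Finset.mem_coe.1 hm
      rw [Finset.mem_filter] at hm'
      exact Finset.mem_coe.2 (mem_filter.2 ⟨m.2, hm'.2⟩)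
    omega
  obtain ⟨T, hTP, hTc, hT⟩ := seg_FI PH (ρ + 1) hPc
  have hTH : T ⊆ H := hTP.trans (Finset.filter_subset _ _)
  have hmem : n ∈ ⋃ T ∈ (H.powersetCard (ρ + 1) : Finset (Finset ℕ)), S T := by
    simp only [Set.mem_iUnion]
    refine ⟨T, Finset.mem_powersetCard.2 ⟨hTH, hTc⟩, ?_⟩
    intro k hk
    obtain ⟨s, hs, t, ht, hk1, hk2⟩ := hk
    constructor
    · intro hkp
      set e := k - n with he
      have hke : k = n + e := by omega
      by_cases heH : e ∈ H
      · have heP : e ∈ PH := mem_filter.2 ⟨heH, by rw [← hke]; exact hkp⟩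
        exact ⟨e, hT e heP t ht (by omega), hke⟩
      · exfalso
        have heE : e ∈ E := by
          rw [hE]
          refine Finset.mem_sdiff.2 ⟨Finset.mem_range.2 ?_, heH⟩
          have := hHD t (hTH ht)
          omega
        obtain ⟨q, hq, hqW, hqe⟩ := hEq e heE
        have h1 : n + e ≡ v + e [MOD q] := (hnv.of_dvd hqW).add_right e
        have h2 : q ∣ n + e := (h1.dvd_iff dvd_rfl).2 hqe
        rw [← hke] at h2
        have h3 : q = k := (Nat.prime_dvd_prime_iff_eq hq hkp).1 h2
        have h4 : q ≤ W := Nat.le_of_dvd hW0 hqW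
        omega
    · rintro ⟨x, hx, rfl⟩
      exact (mem_filter.1 (hTP hx)).2
  have := hB hmem
  omega

end Pool.Agent.Helper29.H2
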